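import Pool.Agent.KACG.Hill

/-!
# Squad KACG, row H_ENT: the solutions are entire functions of `E`
-/

open scoped ComplexConjugate ContDiff

set_option autoImplicit false

noncomputable section

namespace Pool.Agent.KACG.H79

open Pool.Agent.KACG MeasureTheory

/-- finite sums of products of an entire function of `E` and a continuous function of `s` -/
def Cl (F : ℂ → ℝ → ℂ) : Prop :=
  ∃ (ι : Type) (_ : Fintype ι) (p : ι → ℂ → ℂ) (c : ι → ℝ → ℂ), (∀ i, Differentiable ℂ (p i)) ∧
    (∀ i, Continuous (c i)) ∧ ∀ E s, F E s = ∑ i, p i E * c i s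

theorem Cl.cont {F : ℂ → ℝ → ℂ} (h : Cl F) (E : ℂ) : Continuous (F E) := by
  obtain ⟨ι, _, p, c, hp, hc, hF⟩ := h
  have h1 : F E = fun s => ∑ i, p i E * c i s := funext fun s => hF E s
  rw [h1]
  exact continuous_finsetSum _ fun i _ => continuous_const.mul (hc i)

theorem Cl.diff {F : ℂ → ℝ → ℂ} (h : Cl F) (s : ℝ) : Differentiable ℂ (fun E => F E s) := by
  obtain ⟨ι, _, p, c, hp, hc, hF⟩ := h
  have h1 : (fun E => F E s) = fun E => ∑ i, p i E * c i s := funext fun E => hF E s
  rw [h1]
  exact Differentiable.fun_sum fun i _ => (hp i).mul_const _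

theorem Cl.mul {F : ℂ → ℝ → ℂ} (h : Cl F) {V : ℝ → ℝ} (hV : Continuous V) :
    Cl (fun E s => (((V s : ℝ) : ℂ) - E) * F E s) := by
  obtain ⟨ι, _, p, c, hp, hc, hF⟩ := h
  refine ⟨ι ⊕ ι, inferInstance, Sum.elim p (fun i E => -E * p i E),
    Sum.elim (fun i s => ((V s : ℝ) : ℂ) * c i s) c, ?_, ?_, ?_⟩
  · rintro (i | i)
    · exact hp i
    · exact differentiable_id.neg.mul (hp i)
  · rintro (i | i)
    · exact (Complex.continuous_ofReal.comp hV).mul (hc i)
    · exact hc i
  · intro E s
    show (((V s : ℝ) : ℂ) - E) * F E s = _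
    rw [Fintype.sum_sum_type, hF E s, Finset.mul_sum, ← Finset.sum_add_distrib]
    refine Finset.sum_congr rfl fun i _ => ?_
    simp only [Sum.elim_inl, Sum.elim_inr]
    ring

theorem cont_int {c : ℝ → ℂ} (hc : Continuous c) : Continuous fun s : ℝ => ∫ t in (0 : ℝ)..s, c t :=
  intervalIntegral.continuous_primitive (fun _ _ => hc.intervalIntegrable _ _) 0

theorem cont_ker {c : ℝ → ℂ} (hc : Continuous c) :
    Continuous fun s : ℝ => ∫ t in (0 : ℝ)..s, ((s - t : ℝ) : ℂ) * c t := by
  have h1 : (fun s : ℝ => ∫ t in (0 : ℝ)..s, ((s - t : ℝ) : ℂ) * c t) =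
      fun s : ℝ => (s : ℂ) * (∫ t in (0 : ℝ)..s, c t) - ∫ t in (0 : ℝ)..s, (t : ℂ) * c t := by
    funext s
    rw [← intervalIntegral.integral_const_mul, ← intervalIntegral.integral_sub]
    · refine intervalIntegral.integral_congr fun t _ => ?_
      push_cast
      ring
    · exact (continuous_const.mul hc).intervalIntegrable _ _
    · exact (Complex.continuous_ofReal.mul hc).intervalIntegrable _ _
  rw [h1]
  exact (Complex.continuous_ofReal.mul (cont_int hc)).sub
    (cont_int (Complex.continuous_ofReal.mul hc))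

theorem Cl.int0 {F : ℂ → ℝ → ℂ} (h : Cl F) : Cl (fun E s => ∫ t in (0 : ℝ)..s, F E t) := by
  obtain ⟨ι, _, p, c, hp, hc, hF⟩ := h
  refine ⟨ι, inferInstance, p, fun i s => ∫ t in (0 : ℝ)..s, c i t, hp, fun i => cont_int (hc i),
    ?_⟩
  intro E s
  simp only [hF]
  rw [intervalIntegral.integral_finsetSum (f := fun i t => p i E * c i t) fun i _ =>
    (continuous_const.mul (hc i)).intervalIntegrable _ _]
  exact Finset.sum_congr rfl fun i _ => intervalIntegral.integral_const_mul _ _

theorem Cl.int {F : ℂ → ℝ → ℂ} (h : Cl F) :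
    Cl (fun E s => ∫ t in (0 : ℝ)..s, ((s - t : ℝ) : ℂ) * F E t) := by
  obtain ⟨ι, _, p, c, hp, hc, hF⟩ := h
  refine ⟨ι, inferInstance, p, fun i s => ∫ t in (0 : ℝ)..s, ((s - t : ℝ) : ℂ) * c i t, hp,
    fun i => cont_ker (hc i), ?_⟩
  intro E s
  have h1 : ∀ t : ℝ, ((s - t : ℝ) : ℂ) * F E t = ∑ i, p i E * (((s - t : ℝ) : ℂ) * c i t) := by
    intro t
    rw [hF, Finset.mul_sum]
    exact Finset.sum_congr rfl fun i _ => by ring
  simp only [h1]
  rw [intervalIntegral.integral_finsetSum fun i _ => ?_]
  · exact Finset.sum_congr rfl fun i _ => intervalIntegral.integral_const_mul _ _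
  · refine (continuous_const.mul (Continuous.mul ?_ (hc i))).intervalIntegrable _ _
    exact Complex.continuous_ofReal.comp (continuous_const.sub continuous_id)

theorem cl_it {V : ℝ → ℝ} (hV : Continuous V) {f : ℝ → ℂ} (hf : Continuous f) (n : ℕ) :
    Cl (fun E s => it V E f n s) := by
  induction n with
  | zero =>
    refine ⟨Unit, inferInstance, fun _ _ => 1, fun _ => f, fun _ => differentiable_const _,
      fun _ => hf, fun E s => ?_⟩
    simp [it]
  | succ n ih =>
    have h1 := (ih.mul hV).int
    have h2 : (fun (E : ℂ) (s : ℝ) => it V E f (n + 1) s) = fun E s =>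
        ∫ t in (0 : ℝ)..s, ((s - t : ℝ) : ℂ) * ((((V t : ℝ) : ℂ) - E) * it V E f n t) := by
      funext E s
      simp only [it]
      refine intervalIntegral.integral_congr fun t _ => ?_
      ring
    rw [h2]
    exact h1

/-! ## Bounds -/

theorem abs_int_pow (s : ℝ) (n : ℕ) :
    |∫ t in (0 : ℝ)..s, |t| ^ n| = |s| ^ (n + 1) / (n + 1) := by
  rcases le_total 0 s with hs | hs
  · have h1 : ∫ t in (0 : ℝ)..s, |t| ^ n = ∫ t in (0 : ℝ)..s, t ^ n := by
      refine intervalIntegral.integral_congr fun t ht => ?_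
      rw [Set.uIcc_of_le hs] at ht
      rw [abs_of_nonneg ht.1]
    rw [h1, integral_pow, abs_of_nonneg hs]
    simp only [ne_eq, Nat.add_eq_zero_iff, one_ne_zero, and_false, not_false_eq_true, zero_pow,
      sub_zero]
    exact abs_of_nonneg (by positivity)
  · have h1 : ∫ t in (0 : ℝ)..s, |t| ^ n = -∫ t in (0 : ℝ)..(-s), t ^ n := by
      have h2 : ∫ t in (0 : ℝ)..s, |t| ^ n = ∫ t in (0 : ℝ)..s, (-t) ^ n := by
        refine intervalIntegral.integral_congr fun t ht => ?_
        rw [Set.uIcc_of_ge hs] at ht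
        rw [abs_of_nonpos ht.2]
      rw [h2, intervalIntegral.integral_comp_neg (fun t => t ^ n), neg_zero,
        intervalIntegral.integral_symm]
    rw [h1, abs_neg, integral_pow, abs_of_nonpos hs]
    simp only [ne_eq, Nat.add_eq_zero_iff, one_ne_zero, and_false, not_false_eq_true, zero_pow,
      sub_zero]
    have h3 : 0 ≤ -s := by linarith
    exact abs_of_nonneg (by positivity)

theorem it_bound {V : ℝ → ℝ} {E : ℂ} {f : ℝ → ℂ} {R C A : ℝ}
    (hC0 : 0 ≤ C) (hA0 : 0 ≤ A) (hC : ∀ t, |t| ≤ R → ‖((V t : ℝ) : ℂ) - E‖ ≤ C)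
    (hA : ∀ t, |t| ≤ R → ‖f t‖ ≤ A) (n : ℕ) :
    ∀ s, |s| ≤ R → ‖it V E f n s‖ ≤ A * (C * R * |s|) ^ n / n.factorial := by
  induction n with
  | zero =>
    intro s hs
    simpa [it] using hA s hs
  | succ n ih =>
    intro s hs
    have hR0 : 0 ≤ R := (abs_nonneg s).trans hs
    have hfac : (0 : ℝ) < n.factorial := by exact_mod_cast n.factorial_pos
    set K : ℝ := R * C * (A * (C * R) ^ n / n.factorial) with hK
    have hK0 : 0 ≤ K := by positivity
    have h1 : ‖it V E f (n + 1) s‖ ≤ |∫ t in (0 : ℝ)..s, K * |t| ^ n| := by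
      simp only [it]
      refine intervalIntegral.norm_integral_le_abs_of_norm_le ?_ ?_
      · refine (ae_restrict_iff' measurableSet_uIoc).2 (Filter.Eventually.of_forall fun t ht => ?_)
        have ht1 : |t| ≤ |s| ∧ |s - t| ≤ |s| := by
          rcases le_total 0 s with h0 | h0
          · rw [Set.uIoc_of_le h0] at ht
            have := ht.1
            have := ht.2
            rw [abs_of_nonneg h0]
            constructor
            · rw [abs_of_nonneg (by linarith)]
              linarith
            · rw [abs_of_nonneg (by linarith)]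
              linarith
          · rw [Set.uIoc_of_ge h0] at ht
            have := ht.1
            have := ht.2
            rw [abs_of_nonpos h0]
            constructor
            · rw [abs_of_nonpos (by linarith)]
              linarith
            · rw [abs_of_nonpos (by linarith)]
              linarith
        have h2 : |t| ≤ R := ht1.1.trans hs
        have h3 : ‖((s - t : ℝ) : ℂ)‖ ≤ R := by
          rw [Complex.norm_real, Real.norm_eq_abs]
          exact ht1.2.trans hs
        rw [norm_mul, norm_mul]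
        calc ‖((s - t : ℝ) : ℂ)‖ * ‖((V t : ℝ) : ℂ) - E‖ * ‖it V E f n t‖
            ≤ R * C * (A * (C * R * |t|) ^ n / n.factorial) := by
              refine mul_le_mul (mul_le_mul h3 (hC t h2) (norm_nonneg _) hR0) (ih t h2)
                (norm_nonneg _) (by positivity)
          _ = K * |t| ^ n := by
              rw [hK, mul_pow]
              ring
      · exact (continuous_const.mul (continuous_abs.pow n)).intervalIntegrable _ _
    refine h1.trans (le_of_eq ?_)
    rw [intervalIntegral.integral_const_mul, abs_mul, abs_int_pow, abs_of_nonneg hK0, hK,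
      Nat.factorial_succ]
    push_cast
    have h4 : ((n : ℝ) + 1) ≠ 0 := by positivity
    have h5 : (n.factorial : ℝ) ≠ 0 := hfac.ne'
    field_simp
    ring

/-- constants for the affine initial functions -/
theorem consts {V : ℝ → ℝ} (hV : Continuous V) (a b : ℂ) {R ρ : ℝ} (hR : 0 ≤ R) (hρ : 0 ≤ ρ) :
    ∃ C A : ℝ, 0 ≤ C ∧ 0 ≤ A ∧
      (∀ E : ℂ, ‖E‖ ≤ ρ → ∀ t, |t| ≤ R → ‖((V t : ℝ) : ℂ) - E‖ ≤ C) ∧
      ∀ t : ℝ, |t| ≤ R → ‖a + b * (t : ℂ)‖ ≤ A := by
  obtain ⟨C, hC⟩ := (isCompact_Icc (a := -R) (b := R)).exists_bound_of_continuousOn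
    (f := V) hV.continuousOn
  refine ⟨|C| + ρ, ‖a‖ + ‖b‖ * R, by positivity, by positivity, ?_, ?_⟩
  · intro E hE t ht
    have h1 := hC t (abs_le.1 ht)
    calc ‖((V t : ℝ) : ℂ) - E‖ ≤ ‖((V t : ℝ) : ℂ)‖ + ‖E‖ := norm_sub_le _ _
      _ ≤ |C| + ρ := by
        rw [Complex.norm_real]
        exact add_le_add (h1.trans (le_abs_self C)) hE
  · intro t ht
    calc ‖a + b * (t : ℂ)‖ ≤ ‖a‖ + ‖b * (t : ℂ)‖ := norm_add_le _ _
      _ ≤ ‖a‖ + ‖b‖ * R := by
        rw [norm_mul, Complex.norm_real, Real.norm_eq_abs]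
        gcongr

theorem summ (A B : ℝ) : Summable fun n : ℕ => A * B ^ n / n.factorial := by
  have h := (Real.summable_pow_div_factorial B).mul_left A
  refine h.congr fun n => ?_
  ring

/-- H_ENT -/
theorem ent (hVol : VolStmt) : EntStmt := by
  intro V hV a b s
  set f : ℝ → ℂ := fun s => a + b * s with hf
  have hfc : Continuous f := continuous_const.add (continuous_const.mul Complex.continuous_ofReal)
  set R : ℝ := |s| with hR
  have hR0 : 0 ≤ R := abs_nonneg s
  have hUt : ∀ E₀ : ℂ, Metric.ball (0 : ℂ) (‖E₀‖ + 1) ∈ nhds E₀ := fun E₀ =>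
    Metric.isOpen_ball.mem_nhds (by rw [Metric.mem_ball, dist_zero_right]; linarith)
  constructor
  · intro E₀
    obtain ⟨C, A, hC0, hA0, hC, hA⟩ := consts hV a b hR0 (ρ := ‖E₀‖ + 1) (by positivity)
    have h1 : DifferentiableOn ℂ (fun E : ℂ => ∑' n, it V E f n s)
        (Metric.ball (0 : ℂ) (‖E₀‖ + 1)) := by
      refine Complex.differentiableOn_tsum_of_summable_norm (summ A (C * R * |s|))
        (fun n => ((cl_it hV hfc n).diff s).differentiableOn) Metric.isOpen_ball ?_
      intro n E hE
      rw [Metric.mem_ball, dist_zero_right] at hE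
      exact it_bound hC0 hA0 (hC E hE.le) hA n s le_rfl
    exact h1.differentiableAt (hUt E₀)
  · have h2 : (fun E : ℂ => deriv (sol V E f) s) = fun E : ℂ =>
        b + ∑' n, ∫ t in (0 : ℝ)..s, ((((V t : ℝ) : ℂ) - E) * it V E f n t) := by
      funext E
      have h3 := (hVol V hV E a b).2.2.2 s
      rw [h3]
      congr 1
      obtain ⟨C, A, hC0, hA0, hC, hA⟩ := consts hV a b hR0 (ρ := ‖E‖) (norm_nonneg _)
      have h4 : HasSum (fun n => ∫ t in (0 : ℝ)..s, ((((V t : ℝ) : ℂ) - E) * it V E f n t))
          (∫ t in (0 : ℝ)..s, (((V t : ℝ) : ℂ) - E) * sol V E f t) := by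
        refine intervalIntegral.hasSum_integral_of_dominated_convergence
          (fun n _ => C * (A * (C * R * R) ^ n / n.factorial)) ?_ ?_ ?_ ?_ ?_
        · intro n
          exact (((cl_it hV hfc n).mul hV).cont E).aestronglyMeasurable
        · intro n
          refine Filter.Eventually.of_forall fun t ht => ?_
          have ht1 : |t| ≤ R := by
            rcases le_total 0 s with h0 | h0
            · rw [Set.uIoc_of_le h0] at ht
              rw [hR, abs_of_nonneg h0, abs_of_nonneg ht.1.le]
              exact ht.2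
            · rw [Set.uIoc_of_ge h0] at ht
              rw [hR, abs_of_nonpos h0, abs_of_nonpos ht.2]
              linarith [ht.1]
          rw [norm_mul]
          refine mul_le_mul (hC E le_rfl t ht1)
            ((it_bound hC0 hA0 (hC E le_rfl) hA n t ht1).trans ?_) (norm_nonneg _) hC0
          gcongr
        · refine Filter.Eventually.of_forall fun t _ => ?_
          exact (summ A (C * R * R)).mul_left C
        · exact intervalIntegrable_const
        · refine Filter.Eventually.of_forall fun t ht => ?_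
          have ht1 : |t| ≤ R := by
            rcases le_total 0 s with h0 | h0
            · rw [Set.uIoc_of_le h0] at ht
              rw [hR, abs_of_nonneg h0, abs_of_nonneg ht.1.le]
              exact ht.2
            · rw [Set.uIoc_of_ge h0] at ht
              rw [hR, abs_of_nonpos h0, abs_of_nonpos ht.2]
              linarith [ht.1]
          refine HasSum.mul_left _ ?_
          unfold sol
          refine Summable.hasSum ?_
          exact Summable.of_norm_bounded (summ A (C * R * |t|))
            fun n => it_bound hC0 hA0 (hC E le_rfl) hA n t ht1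
      exact h4.tsum_eq.symm
    change Differentiable ℂ (fun E : ℂ => deriv (sol V E f) s)
    rw [h2]
    refine (differentiable_const b).add ?_
    intro E₀
    obtain ⟨C, A, hC0, hA0, hC, hA⟩ := consts hV a b hR0 (ρ := ‖E₀‖ + 1) (by positivity)
    have h1 : DifferentiableOn ℂ (fun E : ℂ => ∑' n,
        ∫ t in (0 : ℝ)..s, ((((V t : ℝ) : ℂ) - E) * it V E f n t))
        (Metric.ball (0 : ℂ) (‖E₀‖ + 1)) := by
      refine Complex.differentiableOn_tsum_of_summable_norm
        (u := fun n : ℕ => C * (A * (C * R * R) ^ n / n.factorial) * |s - 0|)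
        (((summ A (C * R * R)).mul_left C).mul_right _)
        (fun n => ((((cl_it hV hfc n).mul hV).int0).diff s).differentiableOn)
        Metric.isOpen_ball ?_
      intro n E hE
      rw [Metric.mem_ball, dist_zero_right] at hE
      refine intervalIntegral.norm_integral_le_of_norm_le_const fun t ht => ?_
      have ht1 : |t| ≤ R := by
        rcases le_total 0 s with h0 | h0
        · rw [Set.uIoc_of_le h0] at ht
          rw [hR, abs_of_nonneg h0, abs_of_nonneg ht.1.le]
          exact ht.2
        · rw [Set.uIoc_of_ge h0] at ht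
          rw [hR, abs_of_nonpos h0, abs_of_nonpos ht.2]
          linarith [ht.1]
      rw [norm_mul]
      refine mul_le_mul (hC E hE.le t ht1)
        ((it_bound hC0 hA0 (hC E hE.le) hA n t ht1).trans ?_) (norm_nonneg _) hC0
      gcongr
    exact h1.differentiableAt (hUt E₀)

end Pool.Agent.KACG.H79
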