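import Pool.Agent.KACG.Hill

/-!
# Squad KACG, row H_HIL: equal ground state energies give equal discriminants
-/

open scoped ComplexConjugate ContDiff

set_option autoImplicit false

noncomputable section

namespace Pool.Agent.KACG.H79

open Pool.Agent.KACG

theorem disc_diff (hEnt : EntStmt) (L : ℝ) {V : ℝ → ℝ} (hV : Continuous V) :
    Differentiable ℂ (disc L V) := by
  have h1 : (fun s : ℝ => (1 : ℂ) + 0 * (s : ℂ)) = f1 := by
    funext s
    simp [f1]
  have h2 : (fun s : ℝ => (0 : ℂ) + 1 * (s : ℂ)) = f2 := by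
    funext s
    simp [f2]
  have h3 := (hEnt V hV 1 0 L).1
  have h4 := (hEnt V hV 0 1 L).2
  rw [h1] at h3
  rw [h2] at h4
  exact h3.add h4

/-- the discriminant at the ground state energy -/
theorem disc_val (hMin : MinStmt) (hFlo : FloStmt) {L : ℝ} (hL : 0 < L) {V : ℝ → ℝ}
    (hV : ContDiff ℝ ∞ V) (hP : Function.Periodic V L) (b : ℝ) :
    disc L V ((lam L V b + b ^ 2 : ℝ) : ℂ) = ((2 * Real.cos (b * L) : ℝ) : ℂ) := by
  obtain ⟨u, _, hu0, hu1, hu2⟩ := hMin L V b hL hV hP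
  have h1 := hFlo L V hV.continuous _ (Complex.exp (Complex.I * (b * L : ℝ))) u hu2 hu0 hu1
    (Complex.exp_ne_zero _)
  rw [h1, ← Complex.exp_neg]
  push_cast
  rw [Complex.two_cos]
  congr 1
  · congr 1
    ring
  · congr 1
    ring

theorem bdd {L : ℝ} (hL : 0 < L) {V : ℝ → ℝ} (hV : ContDiff ℝ ∞ V)
    (hP : Function.Periodic V L) : ∃ C : ℝ, ∀ s, |V s| ≤ C := by
  have h1 := hP.isBounded_of_continuous hL.ne' hV.continuous
  obtain ⟨C, hC⟩ := h1.exists_norm_le
  exact ⟨C, fun s => hC _ (Set.mem_range_self s)⟩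

/-- H_HIL -/
theorem hil (hMin : MinStmt) (hFlo : FloStmt) (hEnt : EntStmt) (hGau : GauStmt) : HillStmt := by
  intro L V V' hL hV hV' hP hP' hlam
  obtain ⟨C, hC⟩ := bdd hL hV hP
  have hd := disc_diff hEnt L hV.continuous
  have hd' := disc_diff hEnt L hV'.continuous
  set E : ℝ → ℂ := fun b => ((lam L V b + b ^ 2 : ℝ) : ℂ) with hE
  set S : Set ℂ := E '' Set.Ioo 0 (Real.pi / L) with hS
  have hpL : 0 < Real.pi / L := div_pos Real.pi_pos hL
  have heq : ∀ z ∈ S, disc L V z = disc L V' z := by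
    rintro z ⟨b, _, rfl⟩
    have h1 := disc_val hMin hFlo hL hV hP b
    have h2 := disc_val hMin hFlo hL hV' hP' b
    rw [← hlam b] at h2
    exact h1.trans h2.symm
  have hinj : Set.InjOn E (Set.Ioo 0 (Real.pi / L)) := by
    intro b hb b' hb' h
    have h1 := disc_val hMin hFlo hL hV hP b
    have h2 := disc_val hMin hFlo hL hV hP b'
    have h3 : ((2 * Real.cos (b * L) : ℝ) : ℂ) = ((2 * Real.cos (b' * L) : ℝ) : ℂ) := by
      rw [← h1, ← h2]
      exact congrArg _ h
    have h4 : 2 * Real.cos (b * L) = 2 * Real.cos (b' * L) := by exact_mod_cast h3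
    have h5 : Real.cos (b * L) = Real.cos (b' * L) := by linarith
    have hm : ∀ c ∈ Set.Ioo 0 (Real.pi / L), c * L ∈ Set.Icc 0 Real.pi := by
      intro c hc
      refine ⟨(mul_pos hc.1 hL).le, ?_⟩
      have := (lt_div_iff₀ hL).1 hc.2
      exact this.le
    have h6 := Real.injOn_cos (hm b hb) (hm b' hb') h5
    exact mul_right_cancel₀ hL.ne' h6
  have hinf : S.Infinite := (Set.infinite_image_iff hinj).2 (Set.Ioo_infinite hpL)
  have hsub : S ⊆ Metric.closedBall (0 : ℂ) (C + (Real.pi / L) ^ 2) := by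
    rintro z ⟨b, hb, rfl⟩
    rw [Metric.mem_closedBall, dist_zero_right, hE]
    simp only
    rw [Complex.norm_real, Real.norm_eq_abs]
    refine ((hGau L V b hL hV hP).2.2 C hC).trans ?_
    have h1 : b ^ 2 ≤ (Real.pi / L) ^ 2 := pow_le_pow_left₀ hb.1.le hb.2.le 2
    linarith
  obtain ⟨z₀, _, hz₀⟩ := hinf.exists_accPt_of_subset_isCompact (isCompact_closedBall _ _) hsub
  have hfr : ∃ᶠ z in nhdsWithin z₀ {z₀}ᶜ, disc L V z = disc L V' z :=
    (accPt_iff_frequently_nhdsNE.1 hz₀).mono heq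
  have ha : AnalyticOnNhd ℂ (disc L V) Set.univ :=
    (Complex.analyticOnNhd_univ_iff_differentiable).2 hd
  have ha' : AnalyticOnNhd ℂ (disc L V') Set.univ :=
    (Complex.analyticOnNhd_univ_iff_differentiable).2 hd'
  exact ha.eq_of_frequently_eq ha' hfr

end Pool.Agent.KACG.H79
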